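import Pool.Agent.H65.CF.T6

/-!
# Row RAR of the board `cfh_modules`: the arrangement of the mollifier
-/

set_option autoImplicit false

namespace Pool.Agent.H85.CFH

open Pool.Agent.H31.CN Pool.Agent.H65.AD Pool.Agent.H91.CF Pool.Agent.H65.CF

theorem cm_zero' (P : Polynomial ℝ) (M : ℝ) (N m : ℕ) (h : ¬ (Squarefree m ∧ m.Coprime N)) :
    cm P M N m = 0 := by
  unfold cm
  by_cases h1 : (m : ℝ) ≤ M ∧ Nat.Coprime m N
  · rw [if_pos h1]
    have h2 : ¬ Squarefree m := fun h3 => h ⟨h3, h1.2⟩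
    unfold mr
    rw [ArithmeticFunction.moebius_eq_zero_of_not_squarefree h2]
    simp
  · rw [if_neg h1]

theorem rd_dvd {N f : ℕ} (hf : ∀ p, p.Prime → p ∣ f → p ∣ N) : rd f ∣ N := by
  unfold rd
  exact Finset.prod_primes_dvd _ (fun p hp => (Nat.prime_of_mem_primeFactors hp).prime)
    fun p hp => hf p (Nat.prime_of_mem_primeFactors hp) (Nat.dvd_of_mem_primeFactors hp)

theorem dvd_rd {f p : ℕ} (hf : 0 < f) (hp : p.Prime) (h : p ∣ f) : p ∣ rd f := by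
  unfold rd
  exact Finset.dvd_prod_of_mem _ (Nat.mem_primeFactors.2 ⟨hp, h, hf.ne'⟩)

theorem prime_of_dvd_rd {f p : ℕ} (hp : p.Prime) (h : p ∣ rd f) : p ∣ f := by
  unfold rd at h
  obtain ⟨q, hq, hpq⟩ := (hp.prime.dvd_finsetProd_iff _).1 h
  have h1 := Nat.prime_of_mem_primeFactors hq
  rw [(Nat.prime_dvd_prime_iff_eq hp h1).1 hpq]
  exact Nat.dvd_of_mem_primeFactors hq

/-- the divisors of `nf N f` are the divisors of `N` which are prime to `f` -/
theorem dvd_nf {N f n : ℕ} (hN : Squarefree N) (hf0 : 0 < f)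
    (hf : ∀ p, p.Prime → p ∣ f → p ∣ N) : n ∣ nf N f ↔ n ∣ N ∧ Nat.Coprime n f := by
  have h1 : rd f * nf N f = N := Nat.mul_div_cancel' (rd_dvd hf)
  have h2 : Nat.Coprime (rd f) (nf N f) := by
    rw [← h1] at hN
    exact Nat.coprime_of_squarefree_mul hN
  constructor
  · intro h
    refine ⟨h.trans ⟨rd f, by rw [mul_comm]; exact h1.symm⟩, ?_⟩
    refine Nat.Coprime.coprime_dvd_left h ?_
    refine Nat.coprime_of_dvd' fun p hp hpn hpf => ?_
    have h3 := Nat.dvd_gcd (dvd_rd hf0 hp hpf) hpn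
    rw [Nat.Coprime] at h2
    rwa [h2] at h3
  · rintro ⟨h, h3⟩
    rw [← h1] at h
    refine Nat.Coprime.dvd_of_dvd_mul_left ?_ h
    refine Nat.coprime_of_dvd' fun p hp hpn hpf => ?_
    have h4 := Nat.dvd_gcd hpn (prime_of_dvd_rd hp hpf)
    rw [Nat.Coprime] at h3
    rwa [h3] at h4

theorem pf_RAR : T_RAR := by
  intro P M N f D g hN hf0 hf
  classical
  have hN0 : N ≠ 0 := hN.ne_zero
  have hnf := fun n => dvd_nf (n := n) hN hf0 hf
  have hnf0 : nf N f ≠ 0 := by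
    intro h
    have h1 := (hnf 0).1 (by rw [h])
    exact hN0 (Nat.eq_zero_of_zero_dvd h1.1)
  have h1 : ∑ m ∈ Finset.Icc 1 ⌊M⌋₊, ∑ n ∈ (nf N f).divisors,
      anf N f n D * cm P M N m * g (n * m) =
      ∑ m ∈ (Finset.Icc 1 ⌊M⌋₊).filter (fun m => Squarefree m ∧ m.Coprime N),
        ∑ n ∈ (nf N f).divisors, anf N f n D * cm P M N m * g (n * m) := by
    symm
    refine Finset.sum_subset (Finset.filter_subset _ _) fun m hm hm' => ?_
    refine Finset.sum_eq_zero fun n _ => ?_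
    rw [cm_zero' P M N m, mul_zero, zero_mul]
    intro h
    exact hm' (Finset.mem_filter.2 ⟨hm, h⟩)
  rw [h1, ← Finset.sum_product']
  refine Finset.sum_nbij' (fun m => (m / Nat.gcd m N, Nat.gcd m N)) (fun x => x.2 * x.1)
    ?_ ?_ ?_ ?_ ?_
  · intro m hm
    rw [SDf, Finset.mem_filter, Finset.mem_Icc] at hm
    obtain ⟨⟨h2, _⟩, h3, h4, h8⟩ := hm
    have h5 : Nat.gcd m N ∣ m := Nat.gcd_dvd_left _ _
    have h6 : 0 < Nat.gcd m N := Nat.gcd_pos_of_pos_left _ h2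
    rw [Finset.mem_product, Finset.mem_filter, Finset.mem_Icc, Nat.mem_divisors]
    refine ⟨⟨⟨Nat.div_pos (Nat.le_of_dvd h2 h5) h6, Nat.le_floor h4⟩,
      h3.squarefree_of_dvd (Nat.div_dvd_of_dvd h5), ?_⟩,
      (hnf _).2 ⟨Nat.gcd_dvd_right _ _, Nat.Coprime.coprime_dvd_left h5 h8⟩, hnf0⟩
    exact Nat.coprime_div_gcd_of_squarefree h3 hN0
  · rintro ⟨m, n⟩ hx
    rw [Finset.mem_product, Finset.mem_filter, Finset.mem_Icc, Nat.mem_divisors] at hx
    obtain ⟨⟨⟨h2, h3⟩, h4, h5⟩, h6', _⟩ := hx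
    simp only at h2 h3 h4 h5 h6'
    obtain ⟨h6, h8⟩ := (hnf n).1 h6'
    have h7 : 0 < n := Nat.pos_of_dvd_of_pos h6 (Nat.pos_of_ne_zero hN0)
    have hg : Nat.gcd (n * m) N = n := by
      rw [Nat.Coprime.gcd_mul_right_cancel n h5]
      exact Nat.gcd_eq_left h6
    rw [SDf, Finset.mem_filter, Finset.mem_Icc]
    simp only
    refine ⟨⟨Nat.mul_pos h7 h2, Nat.mul_le_mul (Nat.le_of_dvd (Nat.pos_of_ne_zero hN0) h6) h3⟩,
      ?_, ?_, ?_⟩
    · rw [Nat.squarefree_mul (h5.symm.coprime_dvd_left h6)]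
      exact ⟨hN.squarefree_of_dvd h6, h4⟩
    · rw [hg, Nat.mul_div_cancel_left _ h7]
      exact (Nat.le_floor_iff' (by omega)).1 h3
    · refine Nat.Coprime.mul_left h8 ?_
      refine Nat.coprime_of_dvd' fun p hp hpm hpf => ?_
      have h9 := Nat.dvd_gcd hpm (hf p hp hpf)
      rw [Nat.Coprime] at h5
      rwa [h5] at h9
  · intro m _
    exact Nat.mul_div_cancel' (Nat.gcd_dvd_left m N)
  · rintro ⟨m, n⟩ hx
    rw [Finset.mem_product, Finset.mem_filter, Finset.mem_Icc, Nat.mem_divisors] at hx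
    obtain ⟨⟨⟨h2, h3⟩, h4, h5⟩, h6', _⟩ := hx
    simp only at h2 h3 h4 h5 h6'
    obtain ⟨h6, h8⟩ := (hnf n).1 h6'
    have h7 : 0 < n := Nat.pos_of_dvd_of_pos h6 (Nat.pos_of_ne_zero hN0)
    have hg : Nat.gcd (n * m) N = n := by
      rw [Nat.Coprime.gcd_mul_right_cancel n h5]
      exact Nat.gcd_eq_left h6
    simp only [hg, Nat.mul_div_cancel_left _ h7]
  · intro m _
    simp only [CDf, Nat.mul_div_cancel' (Nat.gcd_dvd_left m N)]

end Pool.Agent.H85.CFH
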